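import Pool.Agent.H933.LL.Stm8
import Pool.Agent.H955.LL.Fix

/-!
# P_fixmu: average of `log⁺` of the resolvent over a measure with bounded logarithmic potential
-/

set_option autoImplicit false

open MeasureTheory Metric
open scoped Real ENNReal
open Pool.Agent.H933.LL
open Pool.Agent.H183.LL (Gm pert res_left res_right F_apply exists_inv)
open Pool.Agent.H955.LL (fix_no_eig fix_inv_norm fix_num fix_num2 fix_D fix_diff)

namespace Pool.Agent.H277.LL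

theorem p_fixmu (h1 : P_det) (h2 : P_negmu) : P_fixmu := by
  intro r₀ A₀ hr₀ hA₀
  obtain ⟨C₀, hC₀, hneg⟩ := h2 r₀ A₀ hr₀ hA₀
  have hlb : 0 ≤ Real.log (1 + 4 * r₀) := Real.log_nonneg (by linarith)
  refine ⟨(A₀ + C₀) * (100 * (1 + Real.log (1 + 4 * r₀))), by positivity, ?_⟩
  intro X _ _ _ μ S K z ρ n φ f hμ hρ hz hS hφ hK
  obtain ⟨r, hrdef⟩ : ∃ r : ℝ, r = 4 * r₀ := ⟨_, rfl⟩
  rw [← hrdef] at hK hlb ⊢
  have hr : 0 < r := by
    rw [hrdef]
    positivity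
  obtain ⟨G₀, hG₀⟩ : ∃ G₀ : X →L[ℂ] X, G₀ = K - ∑ i, (φ i).smulRight (f i) := ⟨_, rfl⟩
  rw [← hG₀] at hK
  have hT : ∀ (κ : ℂ) (x : X), (S + κ • K) x = (S + κ • G₀) x + ∑ i, φ i x • (κ • f i) := by
    intro κ x
    have e1 : ∑ i, φ i x • (κ • f i) = κ • (∑ i, (φ i).smulRight (f i)) x := by
      rw [F_apply, Finset.smul_sum]
      exact Finset.sum_congr rfl fun i _ => smul_comm _ _ _
    rw [e1, _root_.add_apply, _root_.add_apply, _root_.smul_apply, _root_.smul_apply, hG₀,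
      _root_.sub_apply, smul_sub]
    abel
  have hρ0 : 0 ≤ ρ := by linarith
  have hQ : ∀ κ ∈ ball (0 : ℂ) (r + 1), z ∈ resolventSet ℂ (S + κ • G₀) ∧
      ‖resolvent (S + κ • G₀) z‖ ≤ 2 * ρ := by
    intro κ hκ
    rw [mem_ball_zero_iff] at hκ
    refine pert hz hS (le_trans ?_ hK)
    rw [norm_smul]
    calc ‖κ‖ * ‖G₀‖ * ρ ≤ (r + 1) * ‖G₀‖ * ρ := by gcongr
      _ = ‖G₀‖ * ρ * (r + 1) := by ring
  have hg : (1 : ℝ) ≤ 3 * (r + 1) * ρ ^ 3 := by
    have h3 : 1 ≤ ρ ^ 3 := one_le_pow₀ hρ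
    nlinarith
  have hent : ∀ κ ∈ ball (0 : ℂ) (r + 1), ∀ i j,
      ‖Gm (resolvent (S + κ • G₀) z) φ (fun i => κ • f i) i j‖ ≤ 3 * (r + 1) * ρ ^ 3 := by
    intro κ hκ i j
    have hκ' : ‖κ‖ ≤ r + 1 := by
      rw [mem_ball_zero_iff] at hκ
      exact hκ.le
    have h3 : ‖φ i (resolvent (S + κ • G₀) z (κ • f j))‖ ≤ ρ * ((2 * ρ) * ((r + 1) * ρ)) := by
      refine ((φ i).le_opNorm _).trans (mul_le_mul (hφ i).1
        (((resolvent (S + κ • G₀) z).le_opNorm _).trans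
        (mul_le_mul (hQ κ hκ).2 ?_ (norm_nonneg _) (by positivity))) (norm_nonneg _) hρ0)
      rw [norm_smul]
      exact mul_le_mul hκ' (hφ j).2 (norm_nonneg _) (by positivity)
    have h4 : ‖(if i = j then (1 : ℂ) else 0)‖ ≤ 1 := by
      split_ifs <;> simp
    have h5 : 1 ≤ ρ ^ 3 := one_le_pow₀ hρ
    unfold Gm
    rw [Matrix.of_apply]
    calc _ ≤ ‖(if i = j then (1 : ℂ) else 0)‖ + ‖φ i (resolvent (S + κ • G₀) z (κ • f j))‖ :=
          norm_sub_le _ _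
      _ ≤ 1 + ρ * ((2 * ρ) * ((r + 1) * ρ)) := add_le_add h4 h3
      _ ≤ (r + 1) * ρ ^ 3 + 2 * (r + 1) * ρ ^ 3 := by
          have h6 : ρ * ((2 * ρ) * ((r + 1) * ρ)) = 2 * (r + 1) * ρ ^ 3 := by ring
          have h7 : 1 ≤ (r + 1) * ρ ^ 3 := by nlinarith
          linarith
      _ = 3 * (r + 1) * ρ ^ 3 := by ring
  obtain ⟨M, hMdef⟩ : ∃ M : ℝ, M = (n * (3 * (r + 1) * ρ ^ 3)) ^ n := ⟨_, rfl⟩
  have hM1 : 1 ≤ M := by
    rw [hMdef]
    rcases Nat.eq_zero_or_pos n with h0 | h0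
    · rw [h0]
      simp
    · refine one_le_pow₀ ?_
      have : (1 : ℝ) ≤ n := by exact_mod_cast h0
      nlinarith
  have hM : ∀ κ ∈ ball (0 : ℂ) (r + 1), ‖fix_D S G₀ z φ f κ‖ ≤ M := by
    intro κ hκ
    rw [hMdef]
    exact (h1 n _ _ hg (hent κ hκ)).1
  have hsub : closedBall (0 : ℂ) (4 * r₀) ⊆ ball (0 : ℂ) (r + 1) :=
    closedBall_subset_ball (by linarith)
  have hsub' : ball (0 : ℂ) (4 * r₀) ⊆ ball (0 : ℂ) (r + 1) := ball_subset_ball (by linarith)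
  have hsub'' : ball (0 : ℂ) r₀ ⊆ ball (0 : ℂ) (r + 1) := ball_subset_ball (by linarith)
  have hD0 : fix_D S G₀ z φ f 0 = 1 := by
    unfold fix_D
    have e1 : Gm (resolvent (S + (0 : ℂ) • G₀) z) φ (fun i => (0 : ℂ) • f i) = 1 := by
      ext i j
      unfold Gm
      rw [Matrix.of_apply]
      simp only [zero_smul, map_zero, sub_zero, Matrix.one_apply]
    rw [e1, Matrix.det_one]
  obtain ⟨hvol, hle⟩ := hneg μ hμ (fix_D S G₀ z φ f) (ball (0 : ℂ) (r + 1)) M isOpen_ball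
    hsub (fix_diff fun κ hκ => (hQ κ hκ).1) hD0 hM1 (fun κ hκ => hM κ (hsub' hκ))
  -- the good couplings
  have hgood : ∀ κ ∈ ball (0 : ℂ) r₀, fix_D S G₀ z φ f κ ≠ 0 →
      z ∈ resolventSet ℂ (S + κ • K) ∧ Real.posLog ‖resolvent (S + κ • K) z‖ ≤
      (1 + (1 + Real.log ρ) + (2 * n + (2 + 4 * Real.log ρ + Real.log (1 + r))) +
      n * (n + (2 + Real.log (1 + r) + 3 * Real.log ρ))) +
        Real.posLog ‖fix_D S G₀ z φ f κ‖⁻¹ := by
    intro κ hκ hd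
    have hκ1 := hsub'' hκ
    have he := fix_no_eig (hT κ) (res_left (hQ κ hκ1).1) hd
    obtain ⟨h3, h4⟩ := exists_inv (hT κ) (res_right (hQ κ hκ1).1) he
    refine ⟨h3, (fix_num n hρ hr (norm_nonneg _) ?_).1⟩
    rw [h4]
    have h5 := (h1 n _ _ hg (hent κ hκ1)).2 hd
    rw [← hMdef]
    have h6 : ∀ i j, ‖(Gm (resolvent (S + κ • G₀) z) φ fun i => κ • f i)⁻¹ i j‖ ≤
        M * ‖fix_D S G₀ z φ f κ‖⁻¹ := by
      intro i j
      rw [hMdef, ← div_eq_mul_inv]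
      exact h5 i j
    refine fix_inv_norm hρ hr.le (by positivity) (hQ κ hκ1).2 (fun i => (hφ i).1) (fun i => ?_) h6
    rw [norm_smul]
    rw [mem_ball_zero_iff] at hκ
    exact mul_le_mul (by linarith) (hφ i).2 (norm_nonneg _) hr.le
  have hae : ∀ᵐ κ ∂μ, κ ∈ ball (0 : ℂ) r₀ ∧ fix_D S G₀ z φ f κ ≠ 0 := by
    have e1 : ∀ᵐ κ ∂μ, κ ∈ ball (0 : ℂ) r₀ := by
      rw [ae_iff]
      exact hμ.car
    have e3 := measure_eq_zero_iff_ae_notMem.1 hvol
    filter_upwards [e1, e3] with κ h3 h4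
    exact ⟨h3, fun h5 => h4 ⟨h3, h5⟩⟩
  refine ⟨hae.mono fun κ hκ => (hgood κ hκ.1 hκ.2).1, ?_⟩
  obtain ⟨A, hA⟩ : ∃ A : ℝ, A = 1 + (1 + Real.log ρ) +
      (2 * n + (2 + 4 * Real.log ρ + Real.log (1 + r))) +
      n * (n + (2 + Real.log (1 + r) + 3 * Real.log ρ)) := ⟨_, rfl⟩
  have hla : 0 ≤ Real.log ρ := Real.log_nonneg hρ
  have hA0 : 0 ≤ A := by
    rw [hA]
    positivity
  have hlM : 0 ≤ Real.log M := Real.log_nonneg hM1
  calc ∫⁻ κ, ENNReal.ofReal (Real.posLog ‖resolvent (S + κ • K) z‖) ∂μ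
      ≤ ∫⁻ κ, (ENNReal.ofReal A +
          ENNReal.ofReal (Real.posLog ‖fix_D S G₀ z φ f κ‖⁻¹)) ∂μ := by
        refine lintegral_mono_ae (hae.mono fun κ hκ => ?_)
        rw [← ENNReal.ofReal_add hA0 Real.posLog_nonneg, hA]
        exact ENNReal.ofReal_le_ofReal (hgood κ hκ.1 hκ.2).2
    _ = ENNReal.ofReal A * μ Set.univ +
          ∫⁻ κ, ENNReal.ofReal (Real.posLog ‖fix_D S G₀ z φ f κ‖⁻¹) ∂μ := by
        rw [lintegral_add_left measurable_const, lintegral_const]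
    _ ≤ ENNReal.ofReal A * ENNReal.ofReal A₀ + ENNReal.ofReal (C₀ * Real.log M) := by
        gcongr
        exact hμ.mass
    _ = ENNReal.ofReal (A * A₀ + C₀ * Real.log M) := by
        rw [← ENNReal.ofReal_mul hA0, ← ENNReal.ofReal_add (by positivity) (by positivity)]
    _ ≤ _ := by
        refine ENNReal.ofReal_le_ofReal ?_
        have h3 : Real.log M ≤ n * (n + (2 + Real.log (1 + r) + 3 * Real.log ρ)) := by
          rw [hMdef]
          exact (fix_num n (y := 0) hρ hr le_rfl (by positivity)).2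
        have h4 := fix_num2 n hla hlb
        have h5 : A + Real.log M ≤ 100 * (n + 1 : ℝ) ^ 2 * (1 + Real.log ρ + Real.log (1 + r)) := by
          refine le_trans ?_ h4
          rw [hA]
          linarith
        have h6 : A * A₀ + C₀ * Real.log M ≤ (A₀ + C₀) * (A + Real.log M) := by
          have e1 : 0 ≤ A₀ * Real.log M := mul_nonneg hA₀ hlM
          have e2 : 0 ≤ C₀ * A := mul_nonneg hC₀.le hA0
          linarith
        have h7 : 1 + Real.log ρ + Real.log (1 + r) ≤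
            (1 + Real.log (1 + r)) * (1 + Real.log ρ) := by
          have : 0 ≤ Real.log (1 + r) * Real.log ρ := mul_nonneg hlb hla
          linarith
        calc A * A₀ + C₀ * Real.log M ≤ (A₀ + C₀) * (A + Real.log M) := h6
          _ ≤ (A₀ + C₀) * (100 * (n + 1 : ℝ) ^ 2 * (1 + Real.log ρ + Real.log (1 + r))) :=
              mul_le_mul_of_nonneg_left h5 (by positivity)
          _ ≤ (A₀ + C₀) * (100 * (n + 1 : ℝ) ^ 2 *
                ((1 + Real.log (1 + r)) * (1 + Real.log ρ))) :=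
              mul_le_mul_of_nonneg_left (mul_le_mul_of_nonneg_left h7 (by positivity))
                (by positivity)
          _ = _ := by ring

end Pool.Agent.H277.LL
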